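import Pool.Agent.K6.H79.FC.Dim

/-!
# Finite generation in negative weights: potential finite generation, and finite covers

`H X n i` stands for `H^i(X_ét, ℤ^c(n))`. The properties which are used are, for `n < 0`: `IsCycleTheory`
(library of helper18: isomorphisms, localization sequence, affine line), and `HasTransfers`. The
`m`-torsion of the groups is finite, as the groups with coefficients `ℤ/m` are finite: `ℤ/p^c(n)` is zero in
characteristic `p`, and a Tate twist of the dualizing complex elsewhere (Geisser). Finite flat
morphisms have transfers: push-forward and pull-back of cycles. For the quotient `f : Y ⟶ Z` by a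
finite group `K` (the action need not be free) the push-forward of cycles is rationally an isomorphism
from the `K`-invariants of the cycle complex of `Y` to the one of `Z`, compatible with étale base
change, and its inverse has bounded denominators. A finite surjective morphism `Y ⟶ X` onto a normal
integral scheme is dominated by such a quotient. The indexing by `s` is the one of `K`-theory:
rationally `H X n (-2n - s)` is the part of `K'_s(X)` of the cycles of dimension `n`.

**Theorem.**

1. *Potential finite generation implies finite generation*, for each single `s`. The groups
   `H^(-2n-s)(X_ét, ℤ^c(n))` are finitely generated for all arithmetic schemes `X` and all `n < 0` if and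
   only if every integral arithmetic scheme `X` has SOME nonempty open subscheme `U` and SOME finite flat
   cover `V ⟶ U` such that `H^(2-s)(V_ét, ℤ^c(-1))` is finitely generated (`Potential`). The same is
   true for every single weight `n < 0` and degree `i`.
2. *Cofinal classes.* Let `𝒴` be a class of integral arithmetic schemes such that every integral
   arithmetic scheme has, up to a finite extension of its function field, a model in `𝒴` of the same
   dimension (`Cofinal`). Then the groups are finitely generated for all arithmetic schemes `X`, all `n < 0`
   and all `s ≤ s₀` if and only if this holds for the schemes in `𝒴`, `n = -1` and `s ≤ s₀`. So the whole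
   question is equivalent to its case of the weight `-1` and of the schemes in `𝒴`. By de Jong's theorem
   on alterations the class of the regular integral schemes which are projective over `Spec ℤ` is cofinal
   (it contains the smooth projective varieties over finite fields); one can also restrict to those
   whose function field contains given roots of unity, and so on.
3. *Finite covers.* Let `Y ⟶ X` be finite and surjective, `X` an arithmetic scheme, and suppose that the
   morphism is flat and `X` is connected, or that `X` is integral and normal. If `H^i(Y_ét, ℤ^c(n))` is
   finitely generated, then `H^i(X_ét, ℤ^c(n))` is finitely generated.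
4. *Group actions.* Let the finite group `G` act on the arithmetic scheme `Y`, let `J` be a subgroup
   and `𝒦` a set of subgroups such that every irreducible representation of `G` over `ℚ` with nonzero
   `J`-fixed vectors has nonzero `K`-fixed vectors for some `K` in `𝒦` (`FixedBelow`). If
   `H^i((Y / K)_ét, ℤ^c(n))` is finitely generated for all `K` in `𝒦`, then `H^i((Y / J)_ét, ℤ^c(n))` is
   finitely generated. For example, finite generation for `Y / J` and for `Y / J'` are equivalent if
   the permutation representations of `G` on `G / J` and `G / J'` are isomorphic (Gassmann); and for
   `J = 1` one can take for `𝒦` all subgroups of prime order if no irreducible representation of `G` is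
   free of fixed points.
5. If `G` is commutative, one can take for `𝒦` the subgroups `K ⊇ J` such that `G / K` is cyclic: finite
   generation for abelian covers follows from the one for the cyclic subcovers. For `G = (ℤ/2)²` it
   holds for `Y` if it holds for the quotients of `Y` by the three involutions and by `G`.

The class of schemes of Morin (2014), for which finite generation is known, is closed under étale
descent (from the cover to the base, with conditions for all iterated fibre products). Statement 3 goes
from any finite flat cover to the base, and 4 and 5 go from quotients of `Y` up to `Y`. Example: let `Y` be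
the Enriques surface over a ring of `S`-integers (with `1/2`) which is the bidouble cover of the
projective plane branched along three conics in general position. Its quotients by the three
involutions are the double planes branched along two of the conics, rational surfaces with four
nodes, for which finite generation is known (the fibres of the resolutions are geometrically
cellular). So it is true for `Y`, whose fibres are not geometrically cellular.

Proof. 3: `d` times the group of `X` is contained in the image of the group of `Y`; it is finitely
generated, and the `d`-torsion is finite. 1: noetherian induction with the localization sequence, for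
all open subschemes of all quotients of a ring, used in such a way that the degree is not changed;
the affine line moves the weight. 2: induction on the dimension. 4: for `K` in `𝒦` a multiple of the norm
`N_K` maps the group of `Y` to a finitely generated group. The left ideal of `ℚ[G]` generated by the
elements `N_K b` contains `N_J`: if not, `ℚ[G]` modulo this ideal contains a simple submodule on which
`N_J` is not zero, while all `N_K` are zero. So a multiple of `N_J` maps the group of `Y` to a finitely
generated group.
-/

set_option autoImplicit false

namespace Pool.Agent.Results.MP_e93a6a_ag.FiniteCovers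

open AlgebraicGeometry CategoryTheory Pool.Agent.K6.H18.Arith Pool.Agent.K6.H79.FC

/-- Potential finite generation, cofinal classes, finite covers, and quotients by groups. -/
theorem result (H : Scheme.{0} → ℤ → ℤ → Type) [∀ X n i, AddCommGroup (H X n i)]
    (hH : IsCycleTheory H) (hT : HasTransfers H) :
    -- potential finite generation, for all weights
    (∀ s : ℤ, (∀ n : ℤ, n < 0 → ∀ X : Scheme.{0}, IsArithmetic X →
        AddGroup.FG (H X n (-2 * n - s))) ↔ Potential H (-1) (2 - s)) ∧
    -- potential finite generation, in a fixed weight and degree
    (∀ n : ℤ, n < 0 → ∀ i : ℤ,
      ((∀ X : Scheme.{0}, IsArithmetic X → AddGroup.FG (H X n i)) ↔ Potential H n i)) ∧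
    -- cofinal classes of schemes
    (∀ 𝒴 : Scheme.{0} → Prop, Cofinal 𝒴 → ∀ s₀ : ℤ,
      ((∀ n : ℤ, n < 0 → ∀ X : Scheme.{0}, IsArithmetic X → ∀ s ≤ s₀,
          AddGroup.FG (H X n (-2 * n - s))) ↔
        ∀ Y : Scheme.{0}, 𝒴 Y → IsArithmetic Y → IsIntegral Y → ∀ s ≤ s₀,
          AddGroup.FG (H Y (-1) (2 - s)))) ∧
    -- finite covers
    (∀ n : ℤ, n < 0 → ∀ (i : ℤ) {X Y : Scheme.{0}} (f : Y ⟶ X), IsCover f → IsArithmetic X →
      AddGroup.FG (H Y n i) → AddGroup.FG (H X n i)) ∧
    -- group actions
    (∀ n : ℤ, n < 0 → ∀ (i : ℤ) (Y : Scheme.{0}), IsArithmetic Y →
      ∀ (G : Type) [Group G] [Finite G] (φ : G →* Aut Y) (J : Subgroup G) (𝒦 : Set (Subgroup G)),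
        FixedBelow J 𝒦 → QuotientsFG H φ 𝒦 n i →
        ∀ (Z : Scheme.{0}) (f : Y ⟶ Z), IsQuotient φ J f → AddGroup.FG (H Z n i)) ∧
    -- actions of commutative groups
    (∀ n : ℤ, n < 0 → ∀ (i : ℤ) (Y : Scheme.{0}), IsArithmetic Y →
      ∀ (G : Type) [CommGroup G] [Finite G] (φ : G →* Aut Y) (J : Subgroup G),
        QuotientsFG H φ {K : Subgroup G | J ≤ K ∧ IsCyclic (G ⧸ K)} n i →
        ∀ (Z : Scheme.{0}) (f : Y ⟶ Z), IsQuotient φ J f → AddGroup.FG (H Z n i)) :=
  ⟨fun s => question_iff hH hT s, fun _ hn _ => all_iff hH hT hn,
    fun _ hJ s₀ => cofinal_weight hH hT hJ s₀,
    fun _ hn _ _ _ f hf hX hY => fg_transfer hT hn f hf hX hY,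
    fun _ hn _ _ hY _ _ _ φ J 𝒦 h𝒦 h _ f hf => fg_quotient hT hn hY φ J f hf 𝒦 h𝒦 h,
    fun _ hn _ _ hY _ _ _ φ J h _ f hf => fg_quotient hT hn hY φ J f hf _ (fixedBelow_cyclic J) h⟩

end Pool.Agent.Results.MP_e93a6a_ag.FiniteCovers
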