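import Pool.Agent.K6.H7.AJ.KTh

/-!
# The growth of the rational K-groups of the powers of a variety over a finite field

Let `X` be ANY nonempty smooth projective variety over the field with `q` elements and let `s ≥ 1`. Let
`ρ (n)` be the rank of the group of the cycles of all codimensions on `X ^ n` modulo numerical
equivalence, and `d (n)` the dimension (a number or infinity) of the vector space `K_s(X ^ n)_ℚ`. Parshin's
conjecture predicts `d (n) = 0`, and Q1 for `X ^ n` in the degrees `i = -2 w - s` of the weights `w < 0`
predicts that the groups `H^i` of the cycle complex `ℤ^c(w)` on the étale site of `X ^ n` are finite: modulo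
torsion they are the parts of negative weight `w` (cycles of dimension `w`) of `K_s(X ^ n)`, and
their torsion subgroups are finite (weights of étale cohomology).

Theorem. The quotient `d (n) / ρ (n)` converges, for `n → ∞`, to an element `N` of `{0, 1, 2, …, ∞}`.

* `N = 0` if and only if `K_s(X ^ n)` is a torsion group for all `n`. This is so if
  `2 d (n) < ρ (n)` for arbitrarily large `n`; and if `2 d (n) < ρ (n)` for one `n ≥ 128 (m + 1) ^ 2
  b ^ (2 m + 6)`, `b` the total Betti number of `X`, then `K_s(X ^ m)` is a torsion group.
* If `d (n) ≤ c ρ (n)` for infinitely many `n`, with any constant `c`, then `N ≤ c` is finite.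
* If `N` is finite then for all `n` and all weights `w < 0` the rational group of `X ^ n` vanishes, and
  the étale groups `H^i(X ^ n, ℤ^c(w))`, `i = -2 w - s`, are finite: a bound for the growth of the
  rational `K`-groups in terms of the numerical Chow groups gives finite generation.
* If the Tate conjecture holds for the powers of `X`, with the semisimplicity of Frobenius at the
  eigenvalues `q ^ w` (known for example for ordinary K3 surfaces, by Zarhin), then `N` is `0` or
  infinity: either `K_s(X ^ n)` is a torsion group for all `n`, or `d (n) / ρ (n)` tends to infinity.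

So if Q1 fails for a power of `X` in a degree `-2 w - s` of a weight `w < 0` then the dimension of
`K_s(X ^ n)_ℚ` grows faster than every multiple of `ρ (n)`.

The setting. `C` is the category of the smooth projective varieties over the finite field with the
groups `CH^*(X × Y)_ℚ` (all codimensions) as morphisms, a rigid symmetric monoidal category; `T = h(X)` is
self-dual and `tp T n = h(X ^ n)`; `R` is `ℓ`-adic cohomology with coefficients extended to an
algebraically closed field. `IsPow` is known for all `X`: the sign conjecture `C⁺` by Katz and
Messing. The data in `KGroups` are known: the correspondences act on `K_s(-)_ℚ`, the sum of the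
higher Chow groups `CH_w(-, s)_ℚ`, on which the Frobenius endomorphism acts by `q ^ w` (Soulé, Geisser).

Idea of the proof. By the law of the dimensions of the values of additive functors on the powers of `X`
(starting library, files N64/AF: helper64 and many others) the limit exists, and if it is finite then
the numerically trivial correspondences act on `K_s(X ^ n)_ℚ` by nilpotent operators. The
characteristic polynomial of Frobenius, applied to Frobenius, is such a correspondence, and it acts on the
part of weight `w < 0` by a nonzero scalar. Under the Tate conjecture the identity is, on the part of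
weight `w ≥ 0`, the sum of a nilpotent operator and of an operator which factors through `K_s` of the
base field, a torsion group.
-/

set_option autoImplicit false

open CategoryTheory MonoidalCategory Module Filter Topology
open Pool.Agent.Y112.SR Pool.Agent.Y112.KD Pool.Agent.N64.AF Pool.Agent.K6.H7.AJ
open scoped ENNReal

namespace Pool.Agent.Results.MP_e93a6a_ag.GrowthOfKGroups

universe v u w x y

/-- The growth of the rational `K`-groups of the powers of `X`. -/
theorem result {C : Type u} [Category.{v} C] [Preadditive C] [MonoidalCategory C]
    [MonoidalPreadditive C] [SymmetricCategory C] [RightRigidCategory C]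
    [Linear ℚ C] [MonoidalLinear ℚ C]
    {K : Type w} [Field K] [IsAlgClosed K] [Algebra ℚ K] (R : SuperRealisation C K)
    (T : C) [ExactPairing T T] (h : IsPow ℚ R T) (q : ℕ) (κ : KGroups.{v, u, w, x} R T q)
    (E : ℕ → ℤ → Type y) [∀ n w, AddCommGroup (E n w)] (hE : IsEtale κ E) :
    ∃ N : ℕ∞,
      RatioTo ℚ T (fun n => dimE ℚ (κ.F.obj (tp T n))) N ∧
      (N = 0 ↔ ∀ n, Subsingleton (κ.F.obj (tp T n))) ∧
      (∀ c : ℕ, (∃ᶠ n in atTop, dimE ℚ (κ.F.obj (tp T n)) ≤ c * numRank ℚ (tp T n)) → N ≤ c) ∧
      (∀ m n : ℕ, 128 * (m + 1) ^ 2 * bt R T ^ (2 * m + 6) ≤ n →
        2 * dimE ℚ (κ.F.obj (tp T n)) < numRank ℚ (tp T n) → Subsingleton (κ.F.obj (tp T m))) ∧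
      (N ≠ ⊤ → ∀ n w, w < 0 → κ.W n w = ⊥ ∧ Finite (E n w)) ∧
      (Tate κ → N = 0 ∨ N = ⊤) :=
  k_law h κ E hE

end Pool.Agent.Results.MP_e93a6a_ag.GrowthOfKGroups
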