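import Pool.Agent.K6.H28.NW.Int

/-!
# Finite generation in negative weights over a finite field: one field of rational functions

Let `F` be a finite field, let `w < 0` be an integer and let `l` be a prime invertible in `F`. For a
smooth projective scheme `Y` over `F` let `G_i(Y) = H^(-i)(Y_ét, ℤ^c(w))`. For a field `K` of
transcendence degree `e` over `F` let `H_i(K) = CH^(e - w)(K, i - 2 w) ⊗ ℚ`, the motivic cohomology of
`K` with rational coefficients in the weight `e - w`.

**In bounded degrees** (`FGBounded`). For all integers `N` and `s` the following are equivalent:

* `G_i(Y)` is finitely generated for all smooth projective `Y` of dimension at most `N` and all `i ≤ s`;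
* these groups are finite;
* `H_i(F(x_1, ..., x_(e + 1))) = 0` for all `i ≤ s + 1` and all `e` with `0 ≤ e ≤ N` and `e ≤ s - w`.

**One field** (`FGOneField`). The question Q1 in the weight `w` has a positive answer for all smooth
projective schemes over `F` of dimension at most `N` if and only if the motivic cohomology with rational
coefficients of the **single** field `F(x_1, ..., x_(N + 1))` in the single weight `N + 1 - w` is zero. If
`K` is any field of transcendence degree `e` over `F` such that `H_i(K) = 0` for all `i` then Q1 has a
positive answer in the weight `w` for all smooth projective schemes over `F` of dimension at most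
`e - 1`.

**All dimensions** (`FGAllDimensions`). For the degrees `i ≤ s` the smooth projective schemes of dimension
at most `s - w` suffice. Q1 has a positive answer in the weight `w` for all smooth projective schemes
over `F` if and only if for each `N` there is a field `K` of transcendence degree `e ≥ N` over `F` with
`H_i(K) = 0` for all `i`.

The proof. By the weights the groups `G_i(Y) / l ^ k` have bounded order; so `G_i(Y)` is finitely
generated if and only if it is finite, and if and only if `G_i(Y) ⊗ ℚ = CH_w(Y, i - 2 w) ⊗ ℚ` is zero. For
the rational groups see `Pool.Agent.Results.MP_7923e9_ag.OneFunctionField`: the groups of the projective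
space `X` of dimension `d + 1` are zero, so that a class on a closed subset `Z` of dimension `d` is a
residue of a class of `X ∖ Z`, which becomes zero on a smaller open subscheme.
-/

set_option autoImplicit false

namespace Pool.Agent.Results.MP_e93a6a_ag.OneFunctionField

open Pool.Agent.K6.H28.NW

/-- **Finite generation for smooth projective schemes over a finite field in a weight `w < 0`, in terms
of fields of rational functions.** -/
theorem result (U : Family) (w : ℤ) (hU : IsUniverse U w) (K : Integral U) (l : ℕ) (hl : 2 ≤ l)
    (hK : IsIntegral K l) : FGBounded K w ∧ FGOneField K ∧ FGAllDimensions K w :=
  ⟨fgBounded hl hK hU, fgOneField hl hK hU, fgAllDimensions hl hK hU⟩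

end Pool.Agent.Results.MP_e93a6a_ag.OneFunctionField
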