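import Pool.Agent.K6.H18.Arith.Main

/-!
# Finite generation in negative weights: complements of quadrics in affine spaces over `ℤ`

`H X n i` stands for `H^i(X_ét, ℤ^c(n))`. The structure `IsCycleTheory` lists the three published
properties that are used: invariance under isomorphisms, the localization sequence for a closed
subscheme of an arithmetic scheme and its open complement, and the formula for the affine line
`H^i((𝔸¹_X)_ét, ℤ^c(n)) = H^(i+2)(X_ét, ℤ^c(n-1))`, all for `n < 0`. Schemes, closed and open
immersions, affine spaces, and the notion of a scheme separated and of finite type over `Spec ℤ`, are those of Mathlib.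

Theorem. (a) In a fixed weight `n < 0` the groups of all arithmetic schemes are finitely generated if
(and only if) this holds for the schemes `Spec ℤ[x_1, …, x_m][1 / (e_1 ⋯ e_r)]`, where every `e_j`
is one of `x_a - x_b x_c`, `x_a - (x_b + x_c)`, `x_a - 1`. These are the complements in the affine
spaces over `ℤ` of finite unions of hyperplanes `x_a = 1`, `x_a = x_b + x_c` and quadrics
`x_a = x_b x_c`. They are smooth over `ℤ`, affine, with geometrically integral rational fibres.
(b) The question, for all arithmetic schemes and all `n < 0`, has a positive answer if and only if
these groups are finitely generated for these schemes in weight `-1`.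

Steps of the proof. Every ring of finite type over `ℤ` is a quotient of a polynomial ring by finitely
many elementary polynomials (write every generator and every relation as the value of an arithmetic
circuit). For a product `h` of elementary polynomials and an elementary `e` the scheme
`D(h) ∩ V(e)` is closed in `D(h)` with open complement `D(h e)`; so induction on the number of
equations gives all affine schemes from the complements. A general arithmetic scheme is treated by
induction on the number of affine open subschemes that cover it, the closed complement of one of
them being covered by one less. The affine line moves the weight.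
-/

set_option autoImplicit false

namespace Pool.Agent.Results.MP_e93a6a_ag.QuadricComplements

open MvPolynomial AlgebraicGeometry Pool.Agent.K6.H18.Arith

/-- Finite generation of `H^i(X_ét, ℤ^c(n))` for all arithmetic schemes is equivalent to finite
generation for the complements in affine spaces over `ℤ` of finite unions of the hyperplanes
`x_a = 1`, `x_a = x_b + x_c` and the quadrics `x_a = x_b x_c`: in every weight `n < 0` separately,
and, for all weights `n < 0` together, it is equivalent to the weight `-1` of these complements. -/
theorem result (H : Scheme.{0} → ℤ → ℤ → Type) [∀ X n i, AddCommGroup (H X n i)]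
    (hH : IsCycleTheory H) :
    (∀ n : ℤ, n < 0 →
      ((∀ X : Scheme.{0}, IsArithmetic X → ∀ i, AddGroup.FG (H X n i)) ↔
        ∀ (m : ℕ) (l : List (MvPolynomial (Fin m) ℤ)), (∀ p ∈ l, p ∈ Elem (Fin m)) → ∀ i,
          AddGroup.FG (H (Spec (CommRingCat.of (Localization.Away l.prod))) n i))) ∧
    ((∀ X : Scheme.{0}, IsArithmetic X → ∀ n : ℤ, n < 0 → ∀ i, AddGroup.FG (H X n i)) ↔
      ∀ (m : ℕ) (l : List (MvPolynomial (Fin m) ℤ)), (∀ p ∈ l, p ∈ Elem (Fin m)) → ∀ i,
        AddGroup.FG (H (Spec (CommRingCat.of (Localization.Away l.prod))) (-1) i)) := by
  refine ⟨fun n hn ↦ weight_iff hH hn, fun h ↦ ?_, fun h X hX n hn i ↦ ?_⟩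
  · exact (weight_iff hH (by norm_num)).mp fun X hX i ↦ h X hX (-1) (by norm_num) i
  · exact all_weights hH ((weight_iff hH (by norm_num)).mpr h) n hn X hX i

end Pool.Agent.Results.MP_e93a6a_ag.QuadricComplements
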